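import Pool.Agent.Q262.Mono.Main

/-!
MP_99db3a_nt, Question 1 (negative answer).

`N m` is the number of real roots of the derivative of the cyclotomic polynomial `Φ_m`, counted
with multiplicity.  For `n = 177 = 3 · 59` and the primes `5 < 7`, neither dividing `n`, we have
`N (n · 5) ≥ 7 > 5 ≥ N (n · 7)`.
-/

set_option autoImplicit false

open Polynomial

namespace Pool.Agent.Results.MP_99db3a_nt.NotMonotone

/-- The number of real roots of `Φ_m'`, counted with multiplicity. -/
noncomputable def N (m : ℕ) : ℕ := Multiset.card (derivative (cyclotomic m ℝ)).roots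

/-- The monotonicity statement fails: it is not true that `N (n p) ≤ N (n p')` for all odd
squarefree `n > 1` and all primes `p < p'` not dividing `n`.  A counterexample is `n = 3 · 59`,
`p = 5`, `p' = 7`, where `N (n p) ≥ 7` and `N (n p') ≤ 5`. -/
theorem result :
    (¬ ∀ n : ℕ, 1 < n → Odd n → Squarefree n → ∀ p p' : ℕ, p.Prime → p'.Prime → p < p' →
      ¬ p ∣ n → ¬ p' ∣ n → N (n * p) ≤ N (n * p')) ∧
    7 ≤ N (3 * 59 * 5) ∧ N (3 * 59 * 7) ≤ 5 := by
  have h1 : 7 ≤ N (3 * 59 * 5) := Q262.Mono.card885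
  have h2 : N (3 * 59 * 7) ≤ 5 := Q262.Mono.card1239
  refine ⟨fun h => ?_, h1, h2⟩
  have hsq : Squarefree (3 * 59 : ℕ) := by
    rw [Nat.squarefree_mul (by norm_num)]
    exact ⟨(by norm_num : Nat.Prime 3).squarefree, (by norm_num : Nat.Prime 59).squarefree⟩
  have h3 := h (3 * 59) (by norm_num) (by decide) hsq 5 7 (by norm_num) (by norm_num) (by norm_num)
    (by norm_num) (by norm_num)
  omega

end Pool.Agent.Results.MP_99db3a_nt.NotMonotone
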